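import Pool.Agent.ASE.Stmts7

/-!
# Squad ASE, row CSB: the coefficients `cS`
-/

open scoped BigOperators

noncomputable section

namespace Pool.Agent.PP.SE.H65

open Pool.Agent.Helper51_AWC Pool.Agent.Helper79_WRA Pool.Agent.PP Pool.Agent.PP.KF
open Pool.Agent.PP.K9 Pool.Agent.PP.K9.H97 Pool.Agent.PP.H75 Pool.Agent.PP.T3 Pool.Agent.PP.SO
open Pool.Agent.PP.SD

section tools

variable {ℓ : ℕ} [Fact ℓ.Prime]

theorem csb_nat (n : ℕ) : (n : ℚ) ∈ SOR.Rl ℓ := natCast_mem _ n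

theorem csb_not_unit (r : ℚ) (hr : r ∈ SOR.Rl ℓ) (h : 1 = (ℓ : ℚ) * r) : False := by
  have hp : Nat.Prime ℓ := Fact.out
  have h0 : (ℓ : ℚ) ≠ 0 := by exact_mod_cast hp.ne_zero
  have h1 : r = (ℓ : ℚ)⁻¹ := by
    field_simp
    linarith
  have h2 : ((ℓ : ℚ)⁻¹).den = ℓ := Rat.inv_natCast_den_of_pos hp.pos
  rw [h1] at hr
  have h3 : ¬ ℓ ∣ ((ℓ : ℚ)⁻¹).den := hr
  rw [h2] at h3
  exact h3 dvd_rfl

/-- numbers in `1 + ℓ Rl ℓ` are units -/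
theorem csb_unit (x q : ℚ) (hq : q ∈ SOR.Rl ℓ) (hx : x = 1 + ℓ * q) :
    x ≠ 0 ∧ x ∈ SOR.Rl ℓ ∧ x⁻¹ ∈ SOR.Rl ℓ := by
  have hp : Nat.Prime ℓ := Fact.out
  have hx0 : x ≠ 0 := by
    intro h
    refine csb_not_unit (ℓ := ℓ) (-q) (neg_mem hq) ?_
    rw [hx] at h
    linarith
  have hxR : x ∈ SOR.Rl ℓ := by
    rw [hx]
    exact add_mem (one_mem _) (mul_mem (csb_nat ℓ) hq)
  refine ⟨hx0, hxR, ?_⟩
  change ¬ ℓ ∣ (x⁻¹).den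
  rw [Rat.den_inv_of_ne_zero hx0]
  intro h
  obtain ⟨k, hk⟩ : (ℓ : ℤ) ∣ x.num := Int.natCast_dvd.2 h
  have h1 : x = (ℓ : ℚ) * (k * (x.den : ℚ)⁻¹) := by
    conv_lhs => rw [← Rat.num_div_den x]
    rw [hk]
    push_cast
    ring
  have h2 : (x.den : ℚ)⁻¹ ∈ SOR.Rl ℓ := by
    change ¬ ℓ ∣ ((x.den : ℚ)⁻¹).den
    rw [Rat.inv_natCast_den_of_pos x.den_pos]
    exact hxR
  refine csb_not_unit (ℓ := ℓ) (k * (x.den : ℚ)⁻¹ - q)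
    (sub_mem (mul_mem (intCast_mem _ k) h2) hq) ?_
  have h3 := hx
  rw [h1] at h3
  linarith

/-- `x` is in `1 + ℓ Rl ℓ` -/
def On (ℓ : ℕ) [Fact ℓ.Prime] (x : ℚ) : Prop := ∃ q ∈ SOR.Rl ℓ, x = 1 + ℓ * q

theorem on_one : On ℓ 1 := ⟨0, zero_mem _, by ring⟩

theorem on_mul {x y : ℚ} (hx : On ℓ x) (hy : On ℓ y) : On ℓ (x * y) := by
  obtain ⟨q, hq, rfl⟩ := hx
  obtain ⟨r, hr, rfl⟩ := hy
  exact ⟨q + r + ℓ * (q * r), add_mem (add_mem hq hr) (mul_mem (csb_nat ℓ) (mul_mem hq hr)),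
    by ring⟩

theorem on_inv {x : ℚ} (hx : On ℓ x) : On ℓ x⁻¹ := by
  obtain ⟨q, hq, h⟩ := hx
  obtain ⟨h0, _, h2⟩ := csb_unit x q hq h
  refine ⟨-(q * x⁻¹), neg_mem (mul_mem hq h2), ?_⟩
  have h3 : x * x⁻¹ = 1 := mul_inv_cancel₀ h0
  have h4 : (ℓ : ℚ) * q = x - 1 := by
    rw [h]
    ring
  calc x⁻¹ = x * x⁻¹ - (x - 1) * x⁻¹ := by ring
    _ = 1 + ℓ * -(q * x⁻¹) := by
      rw [h3, ← h4]
      ring

theorem on_mem {x : ℚ} (hx : On ℓ x) : x ∈ SOR.Rl ℓ := by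
  obtain ⟨q, hq, h⟩ := hx
  exact (csb_unit x q hq h).2.1

theorem on_ne {x : ℚ} (hx : On ℓ x) : x ≠ 0 := by
  obtain ⟨q, hq, h⟩ := hx
  exact (csb_unit x q hq h).1

/-- congruence modulo `ℓ ^ K` -/
def Cg (ℓ : ℕ) [Fact ℓ.Prime] (K : ℕ) (x y : ℚ) : Prop := ∃ q ∈ SOR.Rl ℓ, x - y = ℓ ^ K * q

theorem cg_refl (K : ℕ) (x : ℚ) : Cg ℓ K x x := ⟨0, zero_mem _, by ring⟩

theorem cg_mul {K : ℕ} {x y x' y' : ℚ} (hy : On ℓ y) (hx' : On ℓ x') (h : Cg ℓ K x x')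
    (h' : Cg ℓ K y y') : Cg ℓ K (x * y) (x' * y') := by
  obtain ⟨q, hq, e⟩ := h
  obtain ⟨r, hr, e'⟩ := h'
  refine ⟨q * y + x' * r, add_mem (mul_mem hq (on_mem hy)) (mul_mem (on_mem hx') hr), ?_⟩
  calc x * y - x' * y' = (x - x') * y + x' * (y - y') := by ring
    _ = ℓ ^ K * (q * y + x' * r) := by
      rw [e, e']
      ring

theorem cg_inv {K : ℕ} {x x' : ℚ} (hx : On ℓ x) (hx' : On ℓ x') (h : Cg ℓ K x x') :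
    Cg ℓ K x⁻¹ x'⁻¹ := by
  obtain ⟨q, hq, e⟩ := h
  refine ⟨-(q * x⁻¹ * x'⁻¹), neg_mem (mul_mem (mul_mem hq (on_mem (on_inv hx)))
    (on_mem (on_inv hx'))), ?_⟩
  have h1 := mul_inv_cancel₀ (on_ne hx)
  have h2 := mul_inv_cancel₀ (on_ne hx')
  calc x⁻¹ - x'⁻¹ = (x' * x'⁻¹) * x⁻¹ - (x * x⁻¹) * x'⁻¹ := by rw [h1, h2]; ring
    _ = -((x - x') * x⁻¹ * x'⁻¹) := by ring
    _ = ℓ ^ K * -(q * x⁻¹ * x'⁻¹) := by
      rw [e]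
      ring

theorem on_ux {V₀ : Type} [CommGroup V₀] {U : Subgroup V₀ → ℚ} {W : Subgroup V₀}
    (h : On ℓ (U W)) (c : V₀) : On ℓ (ux U W c) := by
  unfold ux
  split_ifs
  · exact on_one
  · exact h

theorem cg_ux {V₀ : Type} [CommGroup V₀] {U U' : Subgroup V₀ → ℚ} {W : Subgroup V₀} {K : ℕ}
    (h : Cg ℓ K (U W) (U' W)) (c : V₀) : Cg ℓ K (ux U W c) (ux U' W c) := by
  unfold ux
  split_ifs
  · exact cg_refl K 1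
  · exact h

end tools

/-- CSB -/
theorem csb : CsbStmt := by
  intro ℓ _ V₀ _ U U' W K hU hU' hUU c d σ
  have h1 : On ℓ (U W) := hU
  have h2 : On ℓ (U' W) := hU'
  have h3 : Cg ℓ K (U W) (U' W) := hUU
  constructor
  · change On ℓ (cS U c d σ W)
    unfold cS
    rw [div_eq_mul_inv]
    exact on_mul (on_mul (on_ux h1 _) (on_ux h1 _)) (on_inv (on_ux h1 _))
  · change Cg ℓ K (cS U c d σ W) (cS U' c d σ W)
    unfold cS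
    rw [div_eq_mul_inv, div_eq_mul_inv]
    exact cg_mul (on_inv (on_ux h1 _)) (on_mul (on_ux h2 _) (on_ux h2 _))
      (cg_mul (on_ux h1 _) (on_ux h2 _) (cg_ux h3 _) (cg_ux h3 _))
      (cg_inv (on_ux h1 _) (on_ux h2 _) (cg_ux h3 _))

end Pool.Agent.PP.SE.H65
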