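import Pool.Agent.ASE.Stmts3

/-!
# Squad ASE, row SLE: the sums `SL`, formula (3.1)
-/

set_option autoImplicit false

open scoped BigOperators

set_option linter.unusedSectionVars false

noncomputable section

namespace Pool.Agent.PP.SE.H65

open Pool.Agent.Helper51_AWC Pool.Agent.Helper79_WRA Pool.Agent.PP Pool.Agent.PP.KF
open Pool.Agent.PP.K9 Pool.Agent.PP.K9.H97 Pool.Agent.PP.H75 Pool.Agent.PP.T3 Pool.Agent.PP.SO
open Pool.Agent.PP.SD Pool.Agent.PP.SE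

attribute [local instance] Ideal.Quotient.field

theorem sle (hFB : FbrStmt) (hCX : CxvStmt) (hAC : AcbStmt) (hPR : PrbStmt) (hMP : MpbStmt) :
    SleStmt := by
  intro ℓ hℓ M _ hM hℓ2 V₀ G _ _ _ _ E₀ hF B hB D hD n m hPE L h1 h2 χ hχ χ' hχ'
  classical
  have := Fintype.ofFinite V₀
  have : Finite (MulAut V₀) := inferInstanceAs (Finite (V₀ ≃* V₀))
  have := Fintype.ofFinite (MulAut V₀)
  have hp : ℓ.Prime := Fact.out
  have hl0 : (ℓ : ℂ) ≠ 0 := by exact_mod_cast hp.ne_zero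
  rw [hFB ℓ M hM hℓ2 V₀ G E₀ hF B hB.toSb n m hPE L h1 h2 χ hχ χ' hχ']
  obtain ⟨-, -, -, -, -, -, pr7, ⟨pr8a, pr8b, -⟩, -, -⟩ := hPR ℓ V₀ E₀ hF (p1 L)
  obtain ⟨-, -, -, -, -, -, -, ⟨-, pr8c, -⟩, -, -⟩ := hPR ℓ V₀ E₀ hF (p2 L)
  have hn1 : (nS E₀ (p1 L) : ℂ) ≠ 0 := by exact_mod_cast pr8b.ne'
  have hn2 : (nS E₀ (p2 L) : ℂ) ≠ 0 := by exact_mod_cast pr8c.ne'
  -- the pointwise identity
  have key : ∀ w ∈ QL E₀ L,
      (nS E₀ (p1 L ⊔ Subgroup.zpowers w.2) : ℂ) / ((nS E₀ (p1 L) : ℂ) * nS E₀ (p2 L) *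
        Nat.card (B.C (p1 L ⊔ Subgroup.zpowers w.2))) *
      ∑ᶠ s ∈ {s : G | s ∈ B.C (p1 L ⊔ Subgroup.zpowers w.2) ∧ Reg ℓ s},
        cx B (p1 L ⊔ Subgroup.zpowers w.2) w.2 χ s *
          starRingEnd ℂ (cx B (p1 L ⊔ Subgroup.zpowers w.2) w.2 (ac B w.1⁻¹ χ') s) =
      ((ℓ : ℂ) ^ 2 * nS E₀ (p1 L) * nS E₀ (p2 L))⁻¹ *
        (D.D (p1 L) χ w.2 * starRingEnd ℂ (D.D (p2 L) χ' (w.1 w.2))) +
      (nS E₀ (p1 L) : ℂ)⁻¹ * (if Nat.card (p1 L) = ℓ ∧ mp w.1 (p1 L) = p2 L ∧ w.2 ∈ p1 L then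
        nu B χ w.2 * starRingEnd ℂ (nu B χ' (w.1 w.2)) * D.R (p1 L) χ (ac B w.1⁻¹ χ') else 0) := by
    rintro ⟨σ, y⟩ ⟨hσ, hw⟩
    simp only at hw hσ ⊢
    have hσ' : σ⁻¹ ∈ E₀ := E₀.inv_mem hσ
    obtain ⟨ac0, ac1⟩ := hAC ℓ M hM hℓ2 V₀ G E₀ hF B hB.toSb
    obtain ⟨-, -, ac3, -, -, -, -, -⟩ := ac1 (p2 L) σ⁻¹ hσ'
    obtain ⟨a1, -, -, a4, -⟩ := ac3 χ' hχ'
    have hnu : nu B (ac B σ⁻¹ χ') y = nu B χ' (σ y) := by
      have h3 := a4 (σ y)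
      rwa [MulAut.inv_apply_self] at h3
    have hDD : D.D (mp σ⁻¹ (p2 L)) (ac B σ⁻¹ χ') y = D.D (p2 L) χ' (σ y) := by
      have h3 := ((hD.e8 (p2 L) h2 σ⁻¹ hσ' (tt B σ⁻¹) (ac0 σ⁻¹ hσ').1 (ac0 σ⁻¹ hσ').2).2
        χ' hχ' χ' hχ').1 (σ y)
      rw [MulAut.inv_apply_self] at h3
      exact h3
    -- the subgroups
    have hyY : y ∈ p1 L ⊔ Subgroup.zpowers y :=
      (le_sup_right : _ ≤ p1 L ⊔ Subgroup.zpowers y) (Subgroup.mem_zpowers y)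
    have hm := fun W => (hMP V₀ σ⁻¹ σ W W).2.2.2.1
    have hcard : Nat.card (mp σ⁻¹ (p2 L)) = Nat.card (p2 L) := (hMP V₀ σ⁻¹ σ (p2 L) (p2 L)).2.2.1
    have hW2' : mp σ⁻¹ (p2 L) ≠ ⊥ := by
      intro h
      apply h2
      rw [h, Subgroup.card_bot] at hcard
      exact Subgroup.card_eq_one.1 hcard.symm
    have hle1 : mp σ⁻¹ (p2 L) ≤ p1 L ⊔ Subgroup.zpowers y := by
      intro v hv
      rw [hm, inv_inv] at hv
      have h3 : p2 L ≤ (p1 L ⊔ Subgroup.zpowers y).comap (σ⁻¹ : MulAut V₀).toMonoidHom := by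
        unfold p2
        rw [Subgroup.closure_le]
        rintro q ⟨s, hs, rfl⟩
        change σ⁻¹ s.2.1 ∈ p1 L ⊔ Subgroup.zpowers y
        rw [← hw s hs, MulAut.inv_apply_self]
        exact mul_mem ((le_sup_left : p1 L ≤ _) (Subgroup.subset_closure ⟨s, hs, rfl⟩))
          (zpow_mem hyY _)
      have h4 := h3 hv
      change σ⁻¹ (σ v) ∈ p1 L ⊔ Subgroup.zpowers y at h4
      rwa [MulAut.inv_apply_self] at h4
    have hYb : p1 L ⊔ Subgroup.zpowers y ≠ ⊥ := fun h => h1 (le_bot_iff.1 (le_sup_left.trans h.le))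
    have hYc := ((hPR ℓ V₀ E₀ hF (p1 L ⊔ Subgroup.zpowers y)).2.2.2.2.2.2.1 hYb).2
    rcases eq_or_ne (p1 L ⊔ Subgroup.zpowers y) ⊤ with hY | hY
    · -- the first case
      have hle2 : p1 L ⊔ Subgroup.zpowers y ≤ mp σ⁻¹ (p2 L) ⊔ Subgroup.zpowers y := by
        refine sup_le ?_ le_sup_right
        unfold p1
        rw [Subgroup.closure_le]
        rintro p ⟨s, hs, rfl⟩
        have h3 : σ⁻¹ s.2.1 ∈ mp σ⁻¹ (p2 L) := by
          rw [hm, inv_inv, MulAut.apply_inv_self]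
          exact Subgroup.subset_closure ⟨s, hs, rfl⟩
        have h4 : σ⁻¹ s.2.1 = s.1 * y ^ s.2.2 := by
          rw [← hw s hs, MulAut.inv_apply_self]
        have h5 : s.1 = σ⁻¹ s.2.1 * (y ^ s.2.2)⁻¹ := by
          rw [h4, mul_inv_cancel_right]
        rw [SetLike.mem_coe, h5]
        exact mul_mem ((le_sup_left : mp σ⁻¹ (p2 L) ≤ _) h3) (inv_mem (zpow_mem
          ((le_sup_right : _ ≤ mp σ⁻¹ (p2 L) ⊔ Subgroup.zpowers y) (Subgroup.mem_zpowers y)) _))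
      have hy1 : y ∉ p1 L ∨ p1 L = ⊤ := by
        by_cases h : y ∈ p1 L
        · right
          rw [← hY]
          exact (sup_eq_left.2 ((Subgroup.zpowers_le).2 h)).symm
        · exact Or.inl h
      have hy2 : y ∉ mp σ⁻¹ (p2 L) ∨ mp σ⁻¹ (p2 L) = ⊤ := by
        by_cases h : y ∈ mp σ⁻¹ (p2 L)
        · right
          rw [eq_top_iff, ← hY]
          exact hle2.trans (sup_eq_left.2 ((Subgroup.zpowers_le).2 h)).le
        · exact Or.inl h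
      have h3 := (hCX ℓ M hM hℓ2 V₀ G E₀ hF B hB D hD (p1 L) h1 χ hχ y).1 hy1
        (mp σ⁻¹ (p2 L)) hW2' hy2 (ac B σ⁻¹ χ') a1
      rw [hY, h3, hDD, pr8a]
      have hc : (Nat.card (B.C (⊤ : Subgroup V₀)) : ℂ) ≠ 0 := by exact_mod_cast Nat.card_pos.ne'
      rw [if_neg]
      · push_cast
        field_simp
        ring
      · rintro ⟨h4, -, h5⟩
        rcases hy1 with h6 | h6
        · exact h6 h5
        · rw [h6, Subgroup.card_top, hF.cd] at h4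
          have h7 := hp.one_lt
          nlinarith
    · -- the second case
      have hYl : Nat.card (p1 L ⊔ Subgroup.zpowers y : Subgroup V₀) = ℓ := hYc.resolve_left hY
      have hsub : ∀ W : Subgroup V₀, W ≠ ⊥ → W ≤ p1 L ⊔ Subgroup.zpowers y →
          W = p1 L ⊔ Subgroup.zpowers y := by
        intro W hW hle
        have h3 := Subgroup.card_dvd_of_le hle
        rw [hYl] at h3
        rcases (Nat.dvd_prime hp).1 h3 with h4 | h4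
        · exact absurd (Subgroup.card_eq_one.1 h4) hW
        · exact Subgroup.eq_of_le_of_card_ge hle (by rw [h4, hYl])
      have e1 : p1 L ⊔ Subgroup.zpowers y = p1 L := (hsub _ h1 le_sup_left).symm
      have e2 : mp σ⁻¹ (p2 L) = p1 L := (hsub _ hW2' hle1).trans e1
      have hy : y ∈ p1 L := by
        rw [← e1]
        exact hyY
      have hW1 : Nat.card (p1 L) = ℓ := by
        rw [← e1]
        exact hYl
      have e3 : mp σ (p1 L) = p2 L := by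
        have h3 := (hMP V₀ σ⁻¹ σ (p2 L) (p1 L)).2.2.2.2.2.2.2.2.2.1
        rw [inv_inv] at h3
        exact h3.1 e2
      have e4 : nS E₀ (p2 L) = nS E₀ (p1 L) := by
        rw [← e3]
        exact ((hPR ℓ V₀ E₀ hF (p1 L)).2.2.2.1 σ hσ).1
      have a1' : ac B σ⁻¹ χ' ∈ Ch B (p1 L) := e2 ▸ a1
      have c1 := (hCX ℓ M hM hℓ2 V₀ G E₀ hF B hB D hD (p1 L) h1 χ hχ y).2 hy
      have c2 := (hCX ℓ M hM hℓ2 V₀ G E₀ hF B hB D hD (p1 L) h1 (ac B σ⁻¹ χ') a1' y).2 hy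
      have h5 := hD.d5 (p1 L) h1 χ hχ (ac B σ⁻¹ χ') a1'
      have hd2 := (hD.d2 (p1 L) h1 χ hχ).2.2 y hy 1
      have hd2' := (hD.d2 (p1 L) h1 (ac B σ⁻¹ χ') a1').2.2 y hy 1
      rw [mul_one] at hd2 hd2'
      have hDD' : D.D (p1 L) (ac B σ⁻¹ χ') y = D.D (p2 L) χ' (σ y) := by
        rw [← hDD, e2]
      have hc : (Nat.card (B.C (p1 L)) : ℂ) ≠ 0 := by exact_mod_cast Nat.card_pos.ne'
      rw [e1, if_pos ⟨hW1, e3, hy⟩, e4]
      have h6 : ∑ᶠ s ∈ {s : G | s ∈ B.C (p1 L) ∧ Reg ℓ s},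
          cx B (p1 L) y χ s * starRingEnd ℂ (cx B (p1 L) y (ac B σ⁻¹ χ') s) =
          (nu B χ y * starRingEnd ℂ (nu B (ac B σ⁻¹ χ') y)) *
            ∑ᶠ s ∈ {s : G | s ∈ B.C (p1 L) ∧ Reg ℓ s}, χ s * starRingEnd ℂ (ac B σ⁻¹ χ' s) := by
        rw [mul_finsum_mem]
        refine finsum_mem_congr rfl fun s hs => ?_
        rw [c1 s hs.1, c2 s hs.1, map_mul]
        ring
      have h7 : ∑ᶠ s ∈ {s : G | s ∈ B.C (p1 L) ∧ Reg ℓ s},
          χ s * starRingEnd ℂ (ac B σ⁻¹ χ' s) = (Nat.card (B.C (p1 L)) : ℂ) *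
            (D.D (p1 L) χ 1 * starRingEnd ℂ (D.D (p1 L) (ac B σ⁻¹ χ') 1) /
              ((ℓ : ℂ) ^ 2 * nS E₀ (p1 L)) + D.R (p1 L) χ (ac B σ⁻¹ χ')) := by
        rw [← h5, mul_inv_cancel_left₀ hc]
      rw [h6, h7, ← hDD', hd2, hd2', ← hnu, map_mul]
      field_simp
  rw [finsum_mem_congr rfl key]
  congr 1
  simp only [finsum_eq_if]
  rw [finsum_eq_sum_of_fintype, finsum_eq_sum_of_fintype, finsum_eq_sum_of_fintype,
    Finset.mul_sum, Finset.mul_sum, ← Finset.sum_add_distrib]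
  refine Finset.sum_congr rfl fun w _ => ?_
  by_cases hw : w ∈ QL E₀ L
  · have h3 : (w ∈ {w : MulAut V₀ × V₀ | w ∈ QL E₀ L ∧ Nat.card (p1 L) = ℓ ∧
        mp w.1 (p1 L) = p2 L ∧ w.2 ∈ p1 L}) ↔
        (Nat.card (p1 L) = ℓ ∧ mp w.1 (p1 L) = p2 L ∧ w.2 ∈ p1 L) :=
      ⟨fun h => h.2, fun h => ⟨hw, h⟩⟩
    simp only [if_pos hw, h3]
  · have h3 : ¬ (w ∈ {w : MulAut V₀ × V₀ | w ∈ QL E₀ L ∧ Nat.card (p1 L) = ℓ ∧
        mp w.1 (p1 L) = p2 L ∧ w.2 ∈ p1 L}) := fun h => hw h.1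
    rw [if_neg hw, if_neg hw, if_neg h3, mul_zero, mul_zero, add_zero]

end Pool.Agent.PP.SE.H65
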