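import Pool.Agent.ASE.Stmts8
import Pool.Agent.Helper48_AT5.TWT
import Pool.Agent.Helper62_AT3.CO2

/-!
# Squad ASE, row F1S: the number of the characters of a group with a cyclic quotient
-/

set_option autoImplicit false

open scoped BigOperators

set_option linter.unusedSectionVars false

noncomputable section

namespace Pool.Agent.PP.SE.H65

open Pool.Agent.Helper51_AWC Pool.Agent.Helper79_WRA Pool.Agent.PP Pool.Agent.PP.KF
open Pool.Agent.PP.K9 Pool.Agent.PP.K9.H97 Pool.Agent.PP.H75 Pool.Agent.PP.T3 Pool.Agent.PP.SO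
open Pool.Agent.PP.SD Pool.Agent.PP.SE

attribute [local instance] Ideal.Quotient.field

section general

variable {M : Ideal (integralClosure ℤ ℂ)} [M.IsMaximal]

/-- the twisted commutator sum -/
theorem tw_sum {H : Type} [Group H] [Fintype H] (e : H → FF M) (τ : H ≃* H) :
    ∑ n : H, ∑ n' : H, eh M e (τ n * τ n' * (τ n)⁻¹ * n'⁻¹) =
      (Nat.card H : ℂ) * ({κ | κ ∈ IrrE M e ∧ ∀ x, κ (τ x) = κ x}.ncard : ℂ) := by
  classical
  have h1 : ∀ n' : H, ∑ n : H, eh M e (τ n * τ n' * (τ n)⁻¹ * n'⁻¹) =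
      ∑ χ ∈ (T5.H48.ife_fin e).toFinset, χ (τ n'⁻¹) * χ n' := by
    intro n'
    have h2 := T5.H48.kern_lift e (τ n')⁻¹ n'⁻¹
    rw [inv_inv, ← Equiv.sum_comp τ.toEquiv] at h2
    change ∑ᶠ χ ∈ IrrE M e, _ = ∑ n : H, eh M e (τ n * τ n' * (τ n)⁻¹ * n'⁻¹) at h2
    rw [← h2, finsum_mem_eq_finite_toFinset_sum _ (T5.H48.ife_fin e)]
    refine Finset.sum_congr rfl fun χ hχ => ?_
    have hχ' := ((Set.Finite.mem_toFinset _).1 hχ).1
    rw [H94.irr_star hχ', inv_inv, map_inv]
  rw [Finset.sum_comm, Finset.sum_congr rfl fun n' _ => h1 n', Finset.sum_comm]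
  have h3 : ∀ χ ∈ (T5.H48.ife_fin e).toFinset, ∑ n' : H, χ (τ n'⁻¹) * χ n' =
      if ∀ x, χ (τ x) = χ x then (Nat.card H : ℂ) else 0 := by
    intro χ hχ
    have hχ' := ((Set.Finite.mem_toFinset _).1 hχ).1
    have h4 : (fun x => χ (τ x)) ∈ Irr H := irr_comp_equiv τ hχ'
    have h5 : ∑ n' : H, χ (τ n'⁻¹) * χ n' = ∑ n' : H, χ n' * (fun x => χ (τ x)) n'⁻¹ :=
      Finset.sum_congr rfl fun n' _ => mul_comm _ _
    rw [h5]
    split_ifs with h
    · have h6 : (fun x => χ (τ x)) = χ := funext h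
      rw [h6, irr_orth_self hχ', Nat.card_eq_fintype_card]
    · exact irr_orth_ne hχ' h4 fun h6 => h fun x => (congrFun h6 x).symm
  rw [Finset.sum_congr rfl h3, ← Finset.sum_filter, Finset.sum_const, nsmul_eq_mul, mul_comm]
  congr 2
  rw [← Set.ncard_coe_finset]
  congr 1
  ext χ
  simp only [Finset.coe_filter, Set.Finite.mem_toFinset, Set.mem_ofPred_eq]

/-- the number of characters -/
theorem cm_sum {H : Type} [Group H] [Fintype H] (e : H → FF M) :
    ∑ n : H, ∑ n' : H, eh M e (n * n' * n⁻¹ * n'⁻¹) =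
      (Nat.card H : ℂ) * ((IrrE M e).ncard : ℂ) := by
  have h1 := tw_sum e (MulEquiv.refl H)
  simp only [MulEquiv.refl_apply, implies_true, and_true, Set.ofPred_mem_eq] at h1
  exact h1

/-- the lift of an idempotent of a normal subgroup -/
theorem eh_ext {X : Type} [Group X] [Finite X] (N : Subgroup X) [N.Normal] (b : X → FF M)
    (hs : ∀ x, x ∉ N → b x = 0) (hc : ∀ x y, b (x * y * x⁻¹) = b y)
    (hi : IsIdem (fun t : N => b t)) :
    eh M b = H75.ext0 N (eh M (fun t : N => b t)) := by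
  classical
  have := Fintype.ofFinite X
  have := Fintype.ofFinite N
  have hA0 : IsIdem (eh M (fun t : N => b t)) := KF.H25.eh_idem _
  have hinv : ∀ (y : X) (x : N), eh M (fun t : N => b t) (MulAut.conjNormal y x) =
      eh M (fun t : N => b t) x := by
    intro y x
    have h1 := T3.H62.eh_equiv (M := M) (MulAut.conjNormal y : N ≃* N) (b := fun t : N => b t)
      hi.1 x
    rw [← h1]
    refine congrFun (congrArg (eh M) ?_) _
    funext t
    have h2 : ((MulAut.conjNormal y : N ≃* N).symm t : X) = y⁻¹ * t * y := by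
      rw [MulAut.conjNormal_symm_apply]
    simp only [h2]
    have h3 := hc y⁻¹ (t : X)
    rw [inv_inv] at h3
    exact h3.symm
  apply T5.H48.eh_uniq
  · refine ⟨?_, ?_⟩
    · intro x y
      by_cases hx : x ∈ N
      · have hx' : y * x * y⁻¹ ∈ N := Subgroup.Normal.conj_mem inferInstance x hx y
        rw [H75.ext0, H75.ext0, dif_pos hx, dif_pos hx']
        exact hinv y ⟨x, hx⟩
      · have hx' : y * x * y⁻¹ ∉ N := by
          intro h
          apply hx
          have h2 := Subgroup.Normal.conj_mem (inferInstance : N.Normal) _ h y⁻¹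
          have h3 : y⁻¹ * (y * x * y⁻¹) * y⁻¹⁻¹ = x := by group
          rwa [h3] at h2
        rw [H75.ext0, H75.ext0, dif_neg hx, dif_neg hx']
    · rw [← H75.ext0_mulF, hA0.2]
  · intro g
    by_cases hg : g ∈ N
    · rw [H75.ext0, dif_pos hg]
      exact ((KF.H25.idm M N _ hi).1 _).1
    · rw [H75.ext0, dif_neg hg]
      exact Subring.zero_mem _
  · intro g
    by_cases hg : g ∈ N
    · rw [H75.ext0, dif_pos hg]
      exact ((KF.H25.idm M N _ hi).1 _).2
    · rw [H75.ext0, dif_neg hg, rr_zero, hs g hg]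

end general

section sums

variable {X : Type} [Group X] [Fintype X] (N : Subgroup X) [hN : N.Normal] [Fintype N]
  (E : X → ℂ)

/-- the commutator sum over two cosets -/
def Sx (x y : X) : ℂ :=
  ∑ n : N, ∑ n' : N, E ((x * n) * (y * n') * (x * n)⁻¹ * (y * n')⁻¹)

variable {E} (hE : ∀ x y, E (y * x * y⁻¹) = E x)

theorem sx_left (x y : X) : Sx N E (x * y) y = Sx N E x y := by
  unfold Sx
  rw [Finset.sum_comm, Finset.sum_comm (s := (Finset.univ : Finset N))
    (f := fun n n' : N => E ((x * n) * (y * n') * (x * n)⁻¹ * (y * n')⁻¹))]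
  refine Finset.sum_congr rfl fun n' _ => ?_
  rw [← Equiv.sum_comp ((MulAut.conjNormal y⁻¹ : N ≃* N).toEquiv.trans (Equiv.mulRight n'))]
  refine Finset.sum_congr rfl fun n _ => ?_
  congr 1
  simp only [Equiv.trans_apply, Equiv.coe_mulRight, MulEquiv.toEquiv_eq_coe, MulEquiv.coe_toEquiv,
    Subgroup.coe_mul, MulAut.conjNormal_apply]
  group

include hE in
theorem sx_right (x y : X) : Sx N E x (x * y) = Sx N E x y := by
  unfold Sx
  refine Finset.sum_congr rfl fun n _ => ?_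
  rw [← Equiv.sum_comp (Equiv.mulLeft (MulAut.conjNormal y⁻¹ n : N))]
  refine Finset.sum_congr rfl fun n' _ => ?_
  rw [← hE ((x * n) * (y * n') * (x * n)⁻¹ * (y * n')⁻¹) (x * n)]
  congr 1
  simp only [Equiv.coe_mulLeft, Subgroup.coe_mul, MulAut.conjNormal_apply]
  group

theorem sx_cl (x y : X) (ν : N) : Sx N E (x * ν) y = Sx N E x y := by
  unfold Sx
  rw [← Equiv.sum_comp (Equiv.mulLeft ν)
    (fun n : N => ∑ n' : N, E ((x * n) * (y * n') * (x * n)⁻¹ * (y * n')⁻¹))]
  refine Finset.sum_congr rfl fun n _ => Finset.sum_congr rfl fun n' _ => ?_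
  simp only [Equiv.coe_mulLeft, Subgroup.coe_mul, mul_assoc]

theorem sx_cr (x y : X) (ν : N) : Sx N E x (y * ν) = Sx N E x y := by
  unfold Sx
  refine Finset.sum_congr rfl fun n _ => ?_
  rw [← Equiv.sum_comp (Equiv.mulLeft ν)
    (fun n' : N => E ((x * n) * (y * n') * (x * n)⁻¹ * (y * n')⁻¹))]
  refine Finset.sum_congr rfl fun n' _ => ?_
  simp only [Equiv.coe_mulLeft, Subgroup.coe_mul, mul_assoc]

theorem sx_tot : ∑ x : X, ∑ y : X, Sx N E x y =
    (Nat.card N : ℂ) ^ 2 * ∑ x : X, ∑ y : X, E (x * y * x⁻¹ * y⁻¹) := by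
  unfold Sx
  have h1 : ∀ n n' : N, ∑ x : X, ∑ y : X, E ((x * n) * (y * n') * (x * n)⁻¹ * (y * n')⁻¹) =
      ∑ x : X, ∑ y : X, E (x * y * x⁻¹ * y⁻¹) := by
    intro n n'
    rw [← Equiv.sum_comp (Equiv.mulRight (n : X)) (fun x => ∑ y : X, E (x * y * x⁻¹ * y⁻¹))]
    refine Finset.sum_congr rfl fun x _ => ?_
    exact Equiv.sum_comp (Equiv.mulRight (n' : X))
      (fun y => E ((x * n) * y * (x * n)⁻¹ * y⁻¹))
  have h2 : ∑ x : X, ∑ y : X, ∑ n : N, ∑ n' : N,
      E ((x * n) * (y * n') * (x * n)⁻¹ * (y * n')⁻¹) =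
      ∑ n : N, ∑ n' : N, ∑ x : X, ∑ y : X,
        E ((x * n) * (y * n') * (x * n)⁻¹ * (y * n')⁻¹) := by
    have e1 : ∀ x : X, ∑ y : X, ∑ n : N, ∑ n' : N,
        E ((x * n) * (y * n') * (x * n)⁻¹ * (y * n')⁻¹) =
        ∑ n : N, ∑ n' : N, ∑ y : X, E ((x * n) * (y * n') * (x * n)⁻¹ * (y * n')⁻¹) := by
      intro x
      rw [Finset.sum_comm]
      exact Finset.sum_congr rfl fun n _ => Finset.sum_comm
    rw [Finset.sum_congr rfl fun x _ => e1 x, Finset.sum_comm]
    exact Finset.sum_congr rfl fun n _ => Finset.sum_comm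
  rw [h2, Finset.sum_congr rfl fun n _ => Finset.sum_congr rfl fun n' _ => h1 n n']
  rw [Finset.sum_const, Finset.sum_const, nsmul_eq_mul, nsmul_eq_mul, Finset.card_univ,
    Nat.card_eq_fintype_card]
  ring

end sums

/-- Euclid's algorithm -/
theorem euclid {X : Type} [Group X] (D : X → X → ℂ) (hl : ∀ x y, D (x * y) y = D x y)
    (hr : ∀ x y, D x (x * y) = D x y) (h1 : ∀ x, D x 1 = 0) (t : X) :
    ∀ n i j : ℕ, i + j = n → D (t ^ i) (t ^ j) = 0 := by
  intro n
  induction n using Nat.strong_induction_on with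
  | _ n ih =>
    intro i j hij
    rcases Nat.eq_zero_or_pos j with hj | hj
    · rw [hj, pow_zero, h1]
    rcases Nat.eq_zero_or_pos i with hi | hi
    · rw [hi, pow_zero]
      have h2 := hl 1 (t ^ j)
      have h3 := hr (t ^ j) 1
      rw [one_mul] at h2
      rw [mul_one] at h3
      rw [← h2, h3, h1]
    rcases le_or_gt j i with h | h
    · have h2 : t ^ i = t ^ (i - j) * t ^ j := by rw [← pow_add, Nat.sub_add_cancel h]
      rw [h2, hl]
      exact ih (i - j + j) (by omega) _ _ rfl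
    · have h2 : t ^ j = t ^ i * t ^ (j - i) := by rw [← pow_add, Nat.add_sub_cancel' h.le]
      rw [h2, hr]
      exact ih (i + (j - i)) (by omega) _ _ rfl

section count

variable {M : Ideal (integralClosure ℤ ℂ)} [M.IsMaximal] {X : Type} [Group X] [Finite X]
  (N : Subgroup X) [hN : N.Normal] (b : N → FF M)

/-- the fixed characters -/
def Tx (x y : X) : Set (N → ℂ) :=
  {κ | κ ∈ IrrE M b ∧ (∀ n : N, κ (MulAut.conjNormal x n) = κ n) ∧
    ∀ n : N, κ (MulAut.conjNormal y n) = κ n}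

theorem fix_mul {κ : N → ℂ} {x y : X} (hy : ∀ n : N, κ (MulAut.conjNormal y n) = κ n) :
    (∀ n : N, κ (MulAut.conjNormal (x * y) n) = κ n) ↔
      ∀ n : N, κ (MulAut.conjNormal x n) = κ n := by
  constructor
  · intro h n
    have h1 := h ((MulAut.conjNormal y : N ≃* N).symm n)
    rw [map_mul, MulAut.mul_apply, MulEquiv.apply_symm_apply] at h1
    rw [h1]
    have h2 := hy ((MulAut.conjNormal y : N ≃* N).symm n)
    rw [MulEquiv.apply_symm_apply] at h2
    exact h2.symm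
  · intro h n
    rw [map_mul, MulAut.mul_apply, h, hy]

theorem fix_mul' {κ : N → ℂ} {x y : X} (hx : ∀ n : N, κ (MulAut.conjNormal x n) = κ n) :
    (∀ n : N, κ (MulAut.conjNormal (x * y) n) = κ n) ↔
      ∀ n : N, κ (MulAut.conjNormal y n) = κ n := by
  constructor
  · intro h n
    have h1 := h n
    rw [map_mul, MulAut.mul_apply, hx] at h1
    exact h1
  · intro h n
    rw [map_mul, MulAut.mul_apply, hx, h]

theorem fix_N {κ : N → ℂ} (hκ : κ ∈ Irr N) (ν : N) (n : N) :
    κ (MulAut.conjNormal (ν : X) n) = κ n := by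
  have h1 : (MulAut.conjNormal (ν : X) n : N) = ν * n * ν⁻¹ := by
    apply Subtype.ext
    rw [MulAut.conjNormal_apply]
    rfl
  rw [h1, irr_conj hκ]

theorem tx_left (x y : X) : Tx N b (x * y) y = Tx N b x y := by
  ext κ
  constructor
  · rintro ⟨h1, h2, h3⟩
    exact ⟨h1, (fix_mul N h3).1 h2, h3⟩
  · rintro ⟨h1, h2, h3⟩
    exact ⟨h1, (fix_mul N h3).2 h2, h3⟩

theorem tx_right (x y : X) : Tx N b x (x * y) = Tx N b x y := by
  ext κ
  constructor
  · rintro ⟨h1, h2, h3⟩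
    exact ⟨h1, h2, (fix_mul' N h2).1 h3⟩
  · rintro ⟨h1, h2, h3⟩
    exact ⟨h1, h2, (fix_mul' N h2).2 h3⟩

theorem tx_cl (x y : X) (ν : N) : Tx N b (x * ν) y = Tx N b x y := by
  ext κ
  constructor
  · rintro ⟨h1, h2, h3⟩
    exact ⟨h1, (fix_mul N (fix_N N h1.1 ν)).1 h2, h3⟩
  · rintro ⟨h1, h2, h3⟩
    exact ⟨h1, (fix_mul N (fix_N N h1.1 ν)).2 h2, h3⟩

theorem tx_cr (x y : X) (ν : N) : Tx N b x (y * ν) = Tx N b x y := by
  ext κ
  constructor
  · rintro ⟨h1, h2, h3⟩
    exact ⟨h1, h2, (fix_mul N (fix_N N h1.1 ν)).1 h3⟩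
  · rintro ⟨h1, h2, h3⟩
    exact ⟨h1, h2, (fix_mul N (fix_N N h1.1 ν)).2 h3⟩

/-- the set of the statement -/
theorem tx_set (x y : X) : {χ : X → ℂ | (∀ x, x ∉ N → χ x = 0) ∧
    (fun t : N => χ t) ∈ IrrE M b ∧ (∀ z, χ (x * z * x⁻¹) = χ z) ∧
      ∀ z, χ (y * z * y⁻¹) = χ z}.ncard = (Tx N b x y).ncard := by
  have h1 : {χ : X → ℂ | (∀ x, x ∉ N → χ x = 0) ∧
    (fun t : N => χ t) ∈ IrrE M b ∧ (∀ z, χ (x * z * x⁻¹) = χ z) ∧
      ∀ z, χ (y * z * y⁻¹) = χ z} = H75.ext0 N '' Tx N b x y := by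
    ext χ
    constructor
    · rintro ⟨h1, h2, h3, h4⟩
      refine ⟨fun t : N => χ t, ⟨h2, ?_, ?_⟩, H75.ext0_res N h1⟩
      · intro n
        change χ (MulAut.conjNormal x n : N) = χ n
        rw [MulAut.conjNormal_apply, h3]
      · intro n
        change χ (MulAut.conjNormal y n : N) = χ n
        rw [MulAut.conjNormal_apply, h4]
    · rintro ⟨κ, ⟨h2, h3, h4⟩, rfl⟩
      have key : ∀ w : X, (∀ n : N, κ (MulAut.conjNormal w n) = κ n) →
          ∀ z, H75.ext0 N κ (w * z * w⁻¹) = H75.ext0 N κ z := by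
        intro w hw z
        by_cases hz : z ∈ N
        · have hz' : w * z * w⁻¹ ∈ N := hN.conj_mem z hz w
          rw [H75.ext0, H75.ext0, dif_pos hz, dif_pos hz']
          exact hw ⟨z, hz⟩
        · have hz' : w * z * w⁻¹ ∉ N := by
            intro h
            apply hz
            have h5 := hN.conj_mem _ h w⁻¹
            have h6 : w⁻¹ * (w * z * w⁻¹) * w⁻¹⁻¹ = z := by group
            rwa [h6] at h5
          rw [H75.ext0, H75.ext0, dif_neg hz, dif_neg hz']
      refine ⟨H75.ext0_supp N κ, ?_, key x h3, key y h4⟩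
      have h5 : (fun t : N => H75.ext0 N κ t) = κ := funext (H75.ext0_apply N κ)
      rw [h5]
      exact h2
  rw [h1]
  refine Set.ncard_image_of_injective _ ?_
  intro κ κ' h
  funext t
  have h2 := congrFun h (t : X)
  rwa [H75.ext0_apply, H75.ext0_apply] at h2

end count

theorem f1s : F1sStmt := by
  intro ℓ _ M _ hM X _ _ N hN ht b hs hc hi
  classical
  have := Fintype.ofFinite X
  have := Fintype.ofFinite N
  obtain ⟨t, ht⟩ := ht
  have hE := eh_ext N b hs hc hi
  have hEc : ∀ x y, eh M b (y * x * y⁻¹) = eh M b x := KF.H25.eh_cl b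
  have hcN : (Nat.card N : ℂ) ≠ 0 := by
    exact_mod_cast Nat.card_pos.ne'
  -- the base
  have hbase : ∀ z : X, Sx N (eh M b) z 1 =
      (Nat.card N : ℂ) * ((Tx N (fun t : N => b t) z 1).ncard : ℂ) := by
    intro z
    have h1 := tw_sum (M := M) (fun t : N => b t) (MulAut.conjNormal z : N ≃* N)
    have h2 : {κ | κ ∈ IrrE M (fun t : N => b t) ∧ ∀ x, κ ((MulAut.conjNormal z : N ≃* N) x) = κ x} =
        Tx N (fun t : N => b t) z 1 := by
      ext κ
      constructor
      · rintro ⟨h3, h4⟩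
        refine ⟨h3, h4, fun n => ?_⟩
        rw [map_one, MulAut.one_apply]
      · rintro ⟨h3, h4, -⟩
        exact ⟨h3, h4⟩
    rw [h2] at h1
    rw [← h1]
    unfold Sx
    refine Finset.sum_congr rfl fun n _ => Finset.sum_congr rfl fun n' _ => ?_
    rw [hE]
    have h3 : z * (n : X) * (1 * (n' : X)) * (z * (n : X))⁻¹ * (1 * (n' : X))⁻¹ =
        ((MulAut.conjNormal z n * MulAut.conjNormal z n' * (MulAut.conjNormal z n)⁻¹ * n'⁻¹ : N) :
          X) := by
      simp only [Subgroup.coe_mul, Subgroup.coe_inv, MulAut.conjNormal_apply]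
      group
    rw [h3, H75.ext0_apply]
  -- all pairs
  have hall : ∀ x y : X, Sx N (eh M b) x y =
      (Nat.card N : ℂ) * ((Tx N (fun t : N => b t) x y).ncard : ℂ) := by
    intro x y
    obtain ⟨i, hi'⟩ := ht x
    obtain ⟨j, hj'⟩ := ht y
    have hx : x = t ^ i * (⟨_, hi'⟩ : N) := by
      change x = t ^ i * ((t ^ i)⁻¹ * x)
      group
    have hy : y = t ^ j * (⟨_, hj'⟩ : N) := by
      change y = t ^ j * ((t ^ j)⁻¹ * y)
      group
    have h1 := euclid (fun x y => Sx N (eh M b) x y -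
      (Nat.card N : ℂ) * ((Tx N (fun t : N => b t) x y).ncard : ℂ))
      (fun x y => by rw [sx_left, tx_left]) (fun x y => by rw [sx_right N hEc, tx_right])
      (fun x => by rw [hbase, sub_self]) t (i + j) i j rfl
    rw [hx, hy, sx_cl, sx_cr, tx_cl, tx_cr]
    exact sub_eq_zero.1 h1
  -- the total
  have htot := sx_tot N (E := eh M b)
  rw [cm_sum] at htot
  have h2 : ∑ x : X, ∑ y : X, Sx N (eh M b) x y = (Nat.card N : ℂ) *
      ∑ x : X, ∑ y : X, ((Tx N (fun t : N => b t) x y).ncard : ℂ) := by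
    rw [Finset.mul_sum]
    refine Finset.sum_congr rfl fun x _ => ?_
    rw [Finset.mul_sum]
    exact Finset.sum_congr rfl fun y _ => hall x y
  rw [h2] at htot
  have h3 : (∑ x : X, ∑ y : X, ((Tx N (fun t : N => b t) x y).ncard : ℂ)) =
      (Nat.card X : ℂ) * Nat.card N * (IrrE M b).ncard := by
    apply mul_left_cancel₀ hcN
    rw [htot]
    ring
  rw [finsum_eq_sum_of_fintype, Fintype.sum_prod_type]
  apply Nat.cast_injective (R := ℂ)
  push_cast
  rw [← h3]
  refine Finset.sum_congr rfl fun x _ => Finset.sum_congr rfl fun y _ => ?_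
  rw [← tx_set N (fun t : N => b t) x y]

end Pool.Agent.PP.SE.H65
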