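import Pool.Agent.ASE.Stmts2b

/-!
# Squad ASE, row RFA: the fields `d1`, `d2` of `Rs`
-/

open scoped BigOperators

noncomputable section

namespace Pool.Agent.PP.SE.H65

open Pool.Agent.Helper51_AWC Pool.Agent.Helper79_WRA Pool.Agent.PP Pool.Agent.PP.KF
open Pool.Agent.PP.K9 Pool.Agent.PP.K9.H97 Pool.Agent.PP.H75 Pool.Agent.PP.T3 Pool.Agent.PP.SO
open Pool.Agent.PP.SD

attribute [local instance] Ideal.Quotient.field

/-- linear characters of a group of finite exponent: complex conjugation -/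
theorem rfa_conj {V₀ : Type} [CommGroup V₀] {ℓ : ℕ} (hℓ : 0 < ℓ) (hex : ∀ v : V₀, v ^ ℓ = 1)
    {s : V₀ → ℂ} (hs : s ∈ lin V₀) (x : V₀) : starRingEnd ℂ (s x) = s x⁻¹ := by
  have h1 : s x * s x⁻¹ = 1 := by
    rw [← hs.2, mul_inv_cancel, hs.1]
  have hpow : ∀ k : ℕ, s (x ^ k) = s x ^ k := by
    intro k
    induction k with
    | zero => rw [pow_zero, pow_zero, hs.1]
    | succ k ih => rw [pow_succ, pow_succ, hs.2, ih]
  have h2 : s x ^ ℓ = 1 := by rw [← hpow, hex, hs.1]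
  have h3 : ‖s x‖ = 1 := by
    have h4 : ‖s x‖ ^ ℓ = 1 := by rw [← norm_pow, h2, norm_one]
    exact (pow_eq_one_iff_of_nonneg (norm_nonneg _) hℓ.ne').1 h4
  have h5 : s x * starRingEnd ℂ (s x) = 1 := by
    rw [Complex.mul_conj, Complex.normSq_eq_norm_sq, h3]
    norm_num
  have h6 : s x ≠ 0 := by
    intro h
    rw [h, zero_mul] at h1
    exact zero_ne_one h1
  exact mul_left_cancel₀ h6 (h5.trans h1.symm)

/-- RFA -/
theorem rfa (hGEA : GeaStmt) (hGEC : GecStmt) (hVXM : VxmStmt) (hCZB : CzbStmt) : RfaStmt := by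
  intro ℓ _ M _ hM hℓ2 V₀ G _ _ _ _ E₀ hF B hB W hW N e O hC D hD
  classical
  have hp : ℓ.Prime := Fact.out
  obtain ⟨⟨hnd, hnl, _, hkc, hds, hsp, hWb, hWt⟩, hprW, hprm, hprw, hprk, _, _, _, _, _⟩ :=
    hGEA ℓ V₀ E₀ hF W hW
  obtain ⟨_, _, hlf, _, _, _, _, hsv, hst, horb, _, _, _, _⟩ := hGEC ℓ V₀ E₀ hF W hW
  obtain ⟨_, _, _, _, _, _, hcz, _⟩ := hCZB ℓ M hM hℓ2 V₀ G E₀ hF B hB.toSb W
  have hn0 : nS E₀ W ≠ 0 := by
    intro h
    rw [h] at hnl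
    exact hnl (dvd_zero ℓ)
  have hD0 : (B.D ⊤ : ℂ) ≠ 0 := by
    have hR : Rw E₀ (⊤ : Subgroup V₀) := by
      refine ⟨?_, ?_⟩
      · intro h
        apply hWt
        rw [eq_top_iff, h]
        exact bot_le
      · intro σ _ h
        ext v
        exact h v trivial
    have := (hB.dg ⊤ hR).1
    exact_mod_cast this.ne'
  -- the elements of the orbits
  have hO : ∀ χ ∈ Ch B W, χ ∉ N → (∀ s ∈ O χ, s ∈ lk W) ∧ (O χ).ncard = nS E₀ W ∧
      (O χ).Finite := by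
    intro χ hχ hN
    obtain ⟨_, ⟨_, _, _, ⟨ν, hν, hI⟩, _, _⟩, _⟩ := hVXM ℓ M hM hℓ2 V₀ G E₀ hF B hB W hW χ hχ
    obtain ⟨⟨s, hs, hs1, hO⟩, _⟩ := (hC.lv ν hν).vX χ hI hN
    have h1 : ∀ s' ∈ O χ, s' ∈ lk W := by
      intro s' hs'
      rw [hO] at hs'
      obtain ⟨τ, hτ, rfl⟩ := hs'
      exact (hst s hs τ hτ).1
    refine ⟨h1, ?_, hlf.subset h1⟩
    rw [hO]
    exact (horb s hs hs1).1
  have hsx : ∀ s ∈ lk W, ∀ w ∈ W, ∀ x, s (w * x) = s x := by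
    intro s hs w hw x
    rw [hs.1.2, hs.2 w hw, one_mul]
  have hvD : ∀ χ ∈ Ch B W, ∀ x, x ∉ W → D.D W χ x = vx B χ x := by
    intro χ hχ x hx
    obtain ⟨_, ⟨hb, _, _, ⟨ν, hν, hI⟩, _, _⟩, _⟩ := hVXM ℓ M hM hℓ2 V₀ G E₀ hF B hB W hW χ hχ
    obtain ⟨hp1, hp2⟩ := hprW x
    have hxy : x = pr ℓ E₀ W x * (x * (pr ℓ E₀ W x)⁻¹) := by
      rw [mul_comm x, mul_inv_cancel_left]
    have hy1 : x * (pr ℓ E₀ W x)⁻¹ ≠ 1 := by
      intro h
      apply hx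
      rw [hxy, h, mul_one]
      exact hp1
    have h1 : vx B χ x = nu B χ (pr ℓ E₀ W x) * vx B χ (x * (pr ℓ E₀ W x)⁻¹) := by
      conv_lhs => rw [hxy]
      exact hb _ hp1 _
    rw [hD.dD χ hχ x, h1]
    congr 1
    by_cases hN : χ ∈ N
    · rw [if_pos hN, (hC.lv ν hν).vN χ hI hN _ hp2 hy1]
    · rw [if_neg hN, ((hC.lv ν hν).vX χ hI hN).2 _ hp2 hy1]
      congr 1
      refine finsum_mem_congr rfl fun s hs => ?_
      exact ((hsv s ((hO χ hχ hN).1 s hs) x).1).symm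
  refine ⟨fun χ hχ x hx => ?_, fun χ hχ => ?_⟩
  · rw [hvD χ hχ x hx]
    unfold vx
    rw [mul_div_cancel₀ _ hD0]
  · obtain ⟨hχ1, hnu1, hw, _, _⟩ := hcz χ hχ
    obtain ⟨_, ⟨_, _, _, ⟨ν, hν, hI⟩, _, _⟩, _⟩ := hVXM ℓ M hM hℓ2 V₀ G E₀ hF B hB W hW χ hχ
    have he : (e χ : ℂ) ≠ 0 := by
      rcases (hC.lv ν hν).sg χ hI with h | h <;> rw [h] <;> norm_num
    have hpr1 : pr ℓ E₀ W 1 = 1 := hprw 1 W.one_mem
    refine ⟨?_, fun x => ?_, fun w hwW x => ?_⟩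
    · rw [hD.dD χ hχ 1, hpr1, hnu1, one_mul]
      by_cases hN : χ ∈ N
      · rw [if_pos hN]
        exact he
      · rw [if_neg hN]
        refine mul_ne_zero he ?_
        obtain ⟨h1, h2, h3⟩ := hO χ hχ hN
        have h4 : ∑ᶠ s ∈ O χ, s 1 = ∑ᶠ s ∈ O χ, (1 : ℂ) :=
          finsum_mem_congr rfl fun s hs => (h1 s hs).1.1
        rw [h4, finsum_mem_eq_finite_toFinset_sum _ h3, Finset.sum_const,
          ← Set.ncard_eq_toFinset_card _ h3, h2, nsmul_eq_mul, mul_one]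
        exact_mod_cast hn0
    · have hprinv : pr ℓ E₀ W x⁻¹ = (pr ℓ E₀ W x)⁻¹ := by
        have h := hprm x x⁻¹
        rw [mul_inv_cancel, hpr1] at h
        exact (inv_eq_of_mul_eq_one_right h.symm).symm
      rw [hD.dD χ hχ x, hD.dD χ hχ x⁻¹, map_mul, (hw _ (hprW x).1).1, hprinv]
      congr 1
      by_cases hN : χ ∈ N
      · rw [if_pos hN, if_pos hN, map_intCast]
      · rw [if_neg hN, if_neg hN, map_mul, map_intCast]
        congr 1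
        obtain ⟨h1, _, h3⟩ := hO χ hχ hN
        rw [finsum_mem_eq_finite_toFinset_sum _ h3, finsum_mem_eq_finite_toFinset_sum _ h3,
          map_sum]
        refine Finset.sum_congr rfl fun s hs => ?_
        exact rfa_conj hp.pos hF.ex (h1 s ((Set.Finite.mem_toFinset h3).1 hs)).1 x
    · rw [hD.dD χ hχ (w * x), hD.dD χ hχ x, hprm, hprw w hwW,
        (hw w hwW).2.2 _ (hprW x).1, mul_assoc]
      congr 2
      by_cases hN : χ ∈ N
      · rw [if_pos hN, if_pos hN]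
      · rw [if_neg hN, if_neg hN]
        congr 1
        refine finsum_mem_congr rfl fun s hs => ?_
        exact hsx s ((hO χ hχ hN).1 s hs) w hwW x

end Pool.Agent.PP.SE.H65
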