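import Pool.Agent.ASE.Stmts2b
import Pool.Agent.Helper65_ASE.CSB

/-!
# Squad ASE, row RFJ: `e7` and the sum of the values of `et`
-/

open scoped BigOperators

noncomputable section

namespace Pool.Agent.PP.SE.H65

open Pool.Agent.Helper51_AWC Pool.Agent.Helper79_WRA Pool.Agent.PP Pool.Agent.PP.KF
open Pool.Agent.PP.K9 Pool.Agent.PP.K9.H97 Pool.Agent.PP.H75 Pool.Agent.PP.T3 Pool.Agent.PP.SO
open Pool.Agent.PP.SD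

attribute [local instance] Ideal.Quotient.field

theorem rfj_RM {ℓ : ℕ} [Fact ℓ.Prime] {M : Ideal (integralClosure ℤ ℂ)} [M.IsMaximal]
    (hM : (ℓ : integralClosure ℤ ℂ) ∈ M) {q : ℚ} (hq : q ∈ SOR.Rl ℓ) : ((q : ℚ) : ℂ) ∈ RM M := by
  have h1 : ¬ ℓ ∣ q.den := hq
  have h2 := inv_nat_RM (M := M) (Fact.out : ℓ.Prime) hM h1
  have h3 : ((q : ℚ) : ℂ) = (q.num : ℂ) * ((q.den : ℕ) : ℂ)⁻¹ := by
    rw [← div_eq_mul_inv]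
    exact_mod_cast (Rat.num_div_den q).symm
  rw [h3]
  exact (RM M).mul_mem (intCast_mem _ _) h2

theorem rfj_reg1 {ℓ : ℕ} {G : Type} [Group G] : Reg ℓ (1 : G) := by
  unfold Reg
  rw [orderOf_one]
  exact Nat.coprime_one_left ℓ

/-- RFJ -/
theorem rfj (hVAL : ValStmt) (hSNU : SnuStmt) (hGEA : GeaStmt) (hCZB : CzbStmt)
    (hVXM : VxmStmt) : RfjStmt := by
  intro ℓ _ M _ hM hℓ2 V₀ G _ _ _ _ E₀ hF B hB W hW N e O hC D hD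
  classical
  have hp : ℓ.Prime := Fact.out
  have hℓ0 : (ℓ : ℂ) ≠ 0 := by exact_mod_cast hp.ne_zero
  obtain ⟨⟨_, hnl, _, _, _, _, _, hWt⟩, _⟩ := hGEA ℓ V₀ E₀ hF W hW
  obtain ⟨hfin, _, _, hS4, hS5⟩ := hSNU ℓ M hM hℓ2 V₀ G E₀ hF B hB W hW N e O hC
  obtain ⟨_, _, _, _, _, _, hcz, _⟩ := hCZB ℓ M hM hℓ2 V₀ G E₀ hF B hB.toSb W
  obtain ⟨⟨ψ, hψ, hψN⟩, ⟨q', hq', hU⟩, _, hvN, hvX⟩ :=
    hVAL ℓ M hM hℓ2 V₀ G E₀ hF B hB W hW N e O hC D hD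
  have hn0 : nS E₀ W ≠ 0 := by
    intro h
    rw [h] at hnl
    exact hnl (dvd_zero ℓ)
  have hn0' : (nS E₀ W : ℂ) ≠ 0 := by exact_mod_cast hn0
  have hD0 : (B.D ⊤ : ℂ) ≠ 0 := by
    have hR : Rw E₀ (⊤ : Subgroup V₀) := by
      refine ⟨?_, ?_⟩
      · intro h
        apply hWt
        rw [eq_top_iff, h]
        exact bot_le
      · intro σ _ h
        ext v
        exact h v trivial
    have := (hB.dg ⊤ hR).1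
    exact_mod_cast this.ne'
  have hA0 : (Nat.card (B.C W) : ℂ) ≠ 0 := by exact_mod_cast Nat.card_pos.ne'
  have hC0 : (Nat.card (B.C ⊤) : ℂ) ≠ 0 := by exact_mod_cast Nat.card_pos.ne'
  have h1k : (fun _ => (1 : ℂ)) ∈ lk (kW E₀ W) :=
    ⟨⟨rfl, fun _ _ => (one_mul 1).symm⟩, fun _ _ => rfl⟩
  -- signs
  have hsq : ∀ χ ∈ Ch B W, (e χ : ℂ) * e χ = 1 := by
    intro χ hχ
    obtain ⟨_, ⟨_, _, _, ⟨ν, hν, hI⟩, _, _⟩, _⟩ := hVXM ℓ M hM hℓ2 V₀ G E₀ hF B hB W hW χ hχ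
    rcases (hC.lv ν hν).sg χ hI with h | h <;> rw [h] <;> norm_num
  -- the numbers `u`
  have hval : ∀ χ, χ ∈ Ch B W → χ ∈ N → ∃ u q : ℚ, q ∈ SOR.Rl ℓ ∧ u = 1 + ℓ * q ∧
      (e χ : ℂ) * Nat.card (B.C W) * B.D ⊤ / (nS E₀ W * Nat.card (B.C ⊤) * χ 1) = (u : ℂ) ∧
      cv (D.et W) χ = ((nS E₀ W * (u - D.U W) : ℚ) : ℂ) := by
    intro χ h1 h2
    obtain ⟨⟨u, ⟨q, hq, hu⟩, h3, h4⟩, _⟩ := hvN χ h1 h2
    exact ⟨u, q, hq, hu, h3, h4⟩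
  choose! u q huq using hval
  obtain ⟨hN1c, hN1f, _⟩ := hS5 _ h1k
  have hF1 : ∀ χ ∈ hN1f.toFinset, χ ∈ Iv B W (fun _ => 1) ∧ χ ∈ N := fun χ hχ =>
    (Set.Finite.mem_toFinset hN1f).1 hχ
  have hFc : (hN1f.toFinset).card = nS E₀ W := by
    rw [← Set.ncard_eq_toFinset_card _ hN1f, hN1c]
  have hU0 : D.U W ≠ 0 := (csb_unit _ q' hq' hU).1
  have hUR : D.U W ∈ SOR.Rl ℓ := (csb_unit _ q' hq' hU).2.1
  -- the sum of the inverses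
  have hinv : ∀ χ ∈ hN1f.toFinset, ((u χ : ℚ) : ℂ)⁻¹ = nS E₀ W * Nat.card (B.C ⊤) /
      (Nat.card (B.C W) * B.D ⊤) * (e χ * χ 1) := by
    intro χ hχ
    obtain ⟨h1, h2⟩ := hF1 χ hχ
    obtain ⟨_, _, h3, _⟩ := huq χ h1.1 h2
    have h4 := hsq χ h1.1
    have h5 : (e χ : ℂ) ≠ 0 := left_ne_zero_of_mul_eq_one h4
    have h6 : χ 1 ≠ 0 := (hcz χ h1.1).1
    have h7 : (e χ : ℂ)⁻¹ = e χ := inv_eq_of_mul_eq_one_right h4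
    rw [← h3, inv_div, mul_assoc (e χ : ℂ), div_eq_mul_inv, mul_inv, h7]
    field_simp
  have hψu : ((D.U W : ℚ) : ℂ)⁻¹ = Nat.card (B.C ⊤) /
      (Nat.card (B.C W) * B.D ⊤) * (e ψ * ψ 1) := by
    have h3 := hD.dU ψ hψ hψN
    have h4 := hsq ψ hψ
    have h6 : ψ 1 ≠ 0 := (hcz ψ hψ).1
    have h7 : (e ψ : ℂ)⁻¹ = e ψ := inv_eq_of_mul_eq_one_right h4
    rw [← h3, inv_div, mul_assoc (e ψ : ℂ), div_eq_mul_inv, mul_inv, h7]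
    field_simp
  have hsum1 : ∑ χ ∈ hN1f.toFinset, (u χ)⁻¹ = nS E₀ W * (D.U W)⁻¹ := by
    have h1 : ((∑ χ ∈ hN1f.toFinset, (u χ)⁻¹ : ℚ) : ℂ) = ((nS E₀ W * (D.U W)⁻¹ : ℚ) : ℂ) := by
      push_cast
      rw [Finset.sum_congr rfl hinv, ← Finset.mul_sum, hψu]
      have h2 := hC.xi _ h1k ψ hψ hψN 1 (B.C W).one_mem (rfj_reg1)
      rw [finsum_mem_eq_finite_toFinset_sum _ hN1f] at h2
      rw [h2]
      ring
    exact_mod_cast h1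
  have hu0 : ∀ χ ∈ hN1f.toFinset, u χ ≠ 0 ∧ u χ ∈ SOR.Rl ℓ ∧ (u χ)⁻¹ ∈ SOR.Rl ℓ := by
    intro χ hχ
    obtain ⟨h1, h2⟩ := hF1 χ hχ
    obtain ⟨h3, h4, _, _⟩ := huq χ h1.1 h2
    exact csb_unit _ _ h3 h4
  have hsum2 : ∑ χ ∈ hN1f.toFinset, (D.U W - u χ) * (u χ)⁻¹ = 0 := by
    have h1 : ∀ χ ∈ hN1f.toFinset, (D.U W - u χ) * (u χ)⁻¹ = D.U W * (u χ)⁻¹ - 1 := by
      intro χ hχ
      rw [sub_mul, mul_inv_cancel₀ (hu0 χ hχ).1]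
    rw [Finset.sum_congr rfl h1, Finset.sum_sub_distrib, ← Finset.mul_sum, hsum1,
      Finset.sum_const, hFc, nsmul_eq_mul, mul_one]
    field_simp
    ring
  -- the sum of the values
  obtain ⟨Q, hQ⟩ : ∃ Q : ℚ, Q = nS E₀ W * ∑ χ ∈ hN1f.toFinset, (q χ - q') * q χ * (u χ)⁻¹ :=
    ⟨_, rfl⟩
  have hQR : Q ∈ SOR.Rl ℓ := by
    rw [hQ]
    refine mul_mem (csb_nat _) (sum_mem fun χ hχ => ?_)
    obtain ⟨h1, h2⟩ := hF1 χ hχ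
    obtain ⟨h3, _, _, _⟩ := huq χ h1.1 h2
    exact mul_mem (mul_mem (sub_mem h3 hq') h3) (hu0 χ hχ).2.2
  have hsum3 : ∑ χ ∈ hN1f.toFinset, (nS E₀ W * (u χ - D.U W) : ℚ) = ℓ ^ 2 * Q := by
    have h1 : ∀ χ ∈ hN1f.toFinset, (nS E₀ W * (u χ - D.U W) : ℚ) =
        nS E₀ W * (ℓ ^ 2 * ((q χ - q') * q χ * (u χ)⁻¹)) -
          nS E₀ W * ((D.U W - u χ) * (u χ)⁻¹) := by
      intro χ hχ
      obtain ⟨h1, h2⟩ := hF1 χ hχ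
      obtain ⟨_, h4, _, _⟩ := huq χ h1.1 h2
      have h5 := mul_inv_cancel₀ (hu0 χ hχ).1
      have h6 : (ℓ : ℚ) * q χ = u χ - 1 := by rw [h4]; ring
      have h7 : (ℓ : ℚ) * q' = D.U W - 1 := by rw [hU]; ring
      have h8 : (ℓ : ℚ) ^ 2 * ((q χ - q') * q χ * (u χ)⁻¹) =
          (ℓ * q χ - ℓ * q') * (ℓ * q χ) * (u χ)⁻¹ := by ring
      rw [h8, h6, h7]
      linear_combination (nS E₀ W : ℚ) * (D.U W - u χ) * h5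
    rw [Finset.sum_congr rfl h1, Finset.sum_sub_distrib, ← Finset.mul_sum, ← Finset.mul_sum,
      ← Finset.mul_sum, hsum2, mul_zero, sub_zero, hQ]
    ring
  have hS1 : ∑ᶠ χ ∈ {χ | χ ∈ Iv B W (fun _ => 1) ∧ χ ∈ N}, cv (D.et W) χ =
      ((ℓ ^ 2 * Q : ℚ) : ℂ) := by
    rw [finsum_mem_eq_finite_toFinset_sum _ hN1f, ← hsum3, Rat.cast_sum]
    refine Finset.sum_congr rfl fun χ hχ => ?_
    obtain ⟨h1, h2⟩ := hF1 χ hχ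
    exact (huq χ h1.1 h2).2.2.2
  -- the sum of the squares
  obtain ⟨R, hR⟩ : ∃ R : ℚ, R = ∑ χ ∈ hN1f.toFinset, (nS E₀ W * (q χ - q')) ^ 2 := ⟨_, rfl⟩
  have hRR : R ∈ SOR.Rl ℓ := by
    rw [hR]
    refine sum_mem fun χ hχ => pow_mem (mul_mem (csb_nat _) ?_) 2
    obtain ⟨h1, h2⟩ := hF1 χ hχ
    exact sub_mem (huq χ h1.1 h2).1 hq'
  have hS2 : ∑ᶠ χ ∈ {χ | χ ∈ Iv B W (fun _ => 1) ∧ χ ∈ N}, cv (D.et W) χ ^ 2 =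
      ((ℓ ^ 2 * R : ℚ) : ℂ) := by
    rw [finsum_mem_eq_finite_toFinset_sum _ hN1f, hR, Finset.mul_sum, Rat.cast_sum]
    refine Finset.sum_congr rfl fun χ hχ => ?_
    obtain ⟨h1, h2⟩ := hF1 χ hχ
    obtain ⟨_, h4, _, h5⟩ := huq χ h1.1 h2
    rw [h5, h4, hU]
    push_cast
    ring
  -- the functions are constant on the classes
  have hcl : ∀ χ ∈ Ch B W, ∀ ψ ∈ Ch B W, χ ∈ N → ψ ∈ N → rq ℓ B W χ ψ →
      cv (D.et W) χ = cv (D.et W) ψ := by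
    intro χ hχ θ hθ hχN hθN hr
    obtain ⟨_, _, h3, h4⟩ := huq χ hχ hχN
    obtain ⟨_, _, h3', h4'⟩ := huq θ hθ hθN
    have h5 : e χ = e θ := (hC.se χ hχ θ hθ hr).1
    have h6 : χ 1 = θ 1 := hr 1 (B.C W).one_mem rfj_reg1
    have h7 : u χ = u θ := by
      have : ((u χ : ℚ) : ℂ) = ((u θ : ℚ) : ℂ) := by rw [← h3, ← h3', h5, h6]
      exact_mod_cast this
    rw [h4, h4', h7]
  have hsub : ∀ g : (G → ℂ) → ℂ, (∀ χ ∈ Ch B W, χ ∉ N → g χ = 0) →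
      ∑ᶠ χ ∈ Ch B W, g χ = ∑ᶠ χ ∈ {χ | χ ∈ Ch B W ∧ χ ∈ N}, g χ := by
    intro g hg
    have hfin' : {χ | χ ∈ Ch B W ∧ χ ∈ N}.Finite := hfin.subset fun _ h => h.1
    rw [finsum_mem_eq_finite_toFinset_sum _ hfin, finsum_mem_eq_finite_toFinset_sum _ hfin']
    symm
    apply Finset.sum_subset
    · intro χ hχ
      exact (Set.Finite.mem_toFinset hfin).2 ((Set.Finite.mem_toFinset hfin').1 hχ).1
    · intro χ h1 h2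
      have h3 := (Set.Finite.mem_toFinset hfin).1 h1
      exact hg χ h3 fun h => h2 ((Set.Finite.mem_toFinset hfin').2 ⟨h3, h⟩)
  have hX0 : ∀ χ ∈ Ch B W, χ ∉ N → cv (D.et W) χ = 0 := fun χ h1 h2 => (hvX χ h1 h2).1
  refine ⟨⟨Q, hQR, hS1⟩, fun κ hκ => ⟨?_, ?_⟩⟩
  · rw [hsub _ (fun χ h1 h2 => by rw [hX0 χ h1 h2, mul_zero]),
      (hS4 (fun χ => cv (D.et W) χ) hcl).2 κ hκ]
    split_ifs with h
    · rw [hS1]
      have : (ℓ : ℂ) * ((ℓ ^ 2 * Q : ℚ) : ℂ) / (ℓ : ℂ) ^ 2 = ((ℓ * Q : ℚ) : ℂ) := by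
        push_cast
        field_simp
      rw [this]
      exact rfj_RM hM (mul_mem (csb_nat ℓ) hQR)
    · rw [zero_div]
      exact (RM M).zero_mem
  · rw [hsub _ (fun χ h1 h2 => by rw [hX0 χ h1 h2]; ring),
      (hS4 (fun χ => cv (D.et W) χ ^ 2) (fun χ h1 θ h2 h3 h4 h5 => by
        change cv (D.et W) χ ^ 2 = cv (D.et W) θ ^ 2
        rw [hcl χ h1 θ h2 h3 h4 h5])).2 κ hκ]
    split_ifs with h
    · rw [hS2]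
      have : (ℓ : ℂ) * ((ℓ ^ 2 * R : ℚ) : ℂ) / (ℓ : ℂ) ^ 2 = ((ℓ * R : ℚ) : ℂ) := by
        push_cast
        field_simp
      rw [this]
      exact rfj_RM hM (mul_mem (csb_nat ℓ) hRR)
    · rw [zero_div]
      exact (RM M).zero_mem

end Pool.Agent.PP.SE.H65
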